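import Pool.Agent.Lib_helper65.KP.K1

/-!
# MP_3b4c52_gt, block K: the model surfaces
-/

open scoped Manifold ContDiff InnerProductSpace Quaternion Topology Matrix
open Filter

noncomputable section

namespace Pool.Agent.KP

variable {d : ℕ}

namespace K

theorem Q0_symm (p : NProd d) (ξ η : T d) : Q0 p ξ η = Q0 p η ξ := by
  rw [Q0_apply, Q0_apply, real_inner_comm, real_inner_comm η.2, add_comm (p.mul ξ.2 η.1)]

variable (p : NProd d) (c₀ : N d →L[ℝ] T d) (ψ : N d →L[ℝ] ℝ)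

/-- half the square -/
def f0 (y : T d) : N d := (1/2 : ℝ) • Q0 p y y

/-- the denominator -/
def g (y : T d) : ℝ := 1 + ψ (f0 p y)

/-- the parametrization of the base -/
def Θ (y : T d) : T d := (g p ψ y)⁻¹ • (y - c₀ (f0 p y))

theorem f0_zero : f0 p (0 : T d) = 0 := by simp [f0]

theorem g_zero : g p ψ (0 : T d) = 1 := by simp [g, f0_zero]

theorem Θ_zero : Θ p c₀ ψ (0 : T d) = 0 := by simp [Θ, f0_zero]

theorem contDiff_f0 : ContDiff ℝ ω (f0 p) := by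
  unfold f0
  exact (((Q0 p).contDiff.comp contDiff_id).clm_apply contDiff_id).const_smul _

theorem contDiff_g : ContDiff ℝ ω (g p ψ) := by
  unfold g
  exact contDiff_const.add (ψ.contDiff.comp (contDiff_f0 p))

theorem contDiffAt_Θ {y : T d} (hy : g p ψ y ≠ 0) : ContDiffAt ℝ ω (Θ p c₀ ψ) y := by
  unfold Θ
  exact ((contDiff_g p ψ).contDiffAt.inv hy).smul
    (contDiff_id.sub (c₀.contDiff.comp (contDiff_f0 p))).contDiffAt

theorem hasFDerivAt_f0_zero : HasFDerivAt (f0 p) (0 : T d →L[ℝ] N d) 0 := by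
  have h := ((Q0 p).hasFDerivAt.comp (0 : T d) (hasFDerivAt_id (𝕜 := ℝ) (0 : T d))).clm_apply
    (hasFDerivAt_id (𝕜 := ℝ) (0 : T d))
  have h2 := h.const_smul (1/2 : ℝ)
  refine h2.congr_fderiv ?_
  ext x <;> simp

theorem hasFDerivAt_Θ_zero :
    HasFDerivAt (Θ p c₀ ψ) ((ContinuousLinearEquiv.refl ℝ (T d) : T d →L[ℝ] T d)) 0 := by
  have h1 : HasFDerivAt (fun y : T d => (g p ψ y)⁻¹)
      (fderiv ℝ (fun y : T d => (g p ψ y)⁻¹) 0) 0 := by
    have : ContDiffAt ℝ ω (fun y : T d => (g p ψ y)⁻¹) 0 :=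
      (contDiff_g p ψ).contDiffAt.inv (by rw [g_zero]; norm_num)
    exact (this.differentiableAt (by simp)).hasFDerivAt
  have h2 : HasFDerivAt (fun y : T d => y - c₀ (f0 p y)) (ContinuousLinearMap.id ℝ (T d)) 0 := by
    have := (hasFDerivAt_id (𝕜 := ℝ) (0 : T d)).sub
      (c₀.hasFDerivAt.comp (0 : T d) (hasFDerivAt_f0_zero p))
    refine this.congr_fderiv ?_
    simp
  have h3 := h1.smul h2
  refine h3.congr_fderiv ?_
  rw [f0_zero, g_zero]
  ext x <;> simp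

/-- the quadratic part of the functional equation -/
def Bil : N d →L[ℝ] N d →L[ℝ] N d :=
  LinearMap.toContinuousBilinearMap
    (LinearMap.mk₂ ℝ
      (fun X Y : N d => (1/2 : ℝ) • (ψ X • Y + ψ Y • X + Q0 p (c₀ X) (c₀ Y)))
      (by intro a b c; simp only [map_add, add_apply]; module)
      (by intro r a b; simp only [map_smul, smul_apply, smul_eq_mul]; module)
      (by intro a b c; simp only [map_add]; module)
      (by intro r a b; simp only [map_smul, smul_eq_mul]; module))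

theorem Bil_apply (X Y : N d) :
    Bil p c₀ ψ X Y = (1/2 : ℝ) • (ψ X • Y + ψ Y • X + Q0 p (c₀ X) (c₀ Y)) := rfl

theorem Bil_symm (X Y : N d) : Bil p c₀ ψ X Y = Bil p c₀ ψ Y X := by
  rw [Bil_apply, Bil_apply, Q0_symm p (c₀ X)]
  module

/-- the derivative of the first order identity -/
theorem first {F : T d → N d} {x : T d} (hF : DifferentiableAt ℝ F x)
    (hE : ∀ᶠ z in 𝓝 x, F z = ψ (F z) • F z + (1/2 : ℝ) • Q0 p (z + c₀ (F z)) (z + c₀ (F z)))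
    (ζ : T d) :
    fderiv ℝ F x ζ = ψ (fderiv ℝ F x ζ) • F x + ψ (F x) • fderiv ℝ F x ζ +
      Q0 p (x + c₀ (F x)) (ζ + c₀ (fderiv ℝ F x ζ)) := by
  have hline : HasDerivAt (fun t : ℝ => x + t • ζ) ζ 0 := by
    have := ((hasDerivAt_id (0 : ℝ)).smul_const ζ).const_add x
    simpa using this
  have hx0 : x + (0 : ℝ) • ζ = x := by simp
  have hu : HasDerivAt (fun t : ℝ => F (x + t • ζ)) (fderiv ℝ F x ζ) 0 := by
    have h1 : HasFDerivAt F (fderiv ℝ F x) (x + (0 : ℝ) • ζ) := by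
      rw [hx0]; exact hF.hasFDerivAt
    exact h1.comp_hasDerivAt 0 hline
  have hw : HasDerivAt (fun t : ℝ => (x + t • ζ) + c₀ (F (x + t • ζ)))
      (ζ + c₀ (fderiv ℝ F x ζ)) 0 := hline.add (c₀.hasFDerivAt.comp_hasDerivAt 0 hu)
  have hψ : HasDerivAt (fun t : ℝ => ψ (F (x + t • ζ))) (ψ (fderiv ℝ F x ζ)) 0 :=
    ψ.hasFDerivAt.comp_hasDerivAt 0 hu
  have hQ : HasDerivAt (fun t : ℝ => Q0 p ((x + t • ζ) + c₀ (F (x + t • ζ)))
      ((x + t • ζ) + c₀ (F (x + t • ζ)))) _ 0 :=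
    ((Q0 p).hasFDerivAt.comp_hasDerivAt 0 hw).clm_apply hw
  have hR := (hψ.smul hu).add (hQ.const_smul (1/2 : ℝ))
  have htend : Tendsto (fun t : ℝ => x + t • ζ) (𝓝 0) (𝓝 x) := by
    have := hline.continuousAt.tendsto
    simpa using this
  have heq : (fun t : ℝ => F (x + t • ζ)) =ᶠ[𝓝 0] fun t => ψ (F (x + t • ζ)) • F (x + t • ζ) +
      (1/2 : ℝ) • Q0 p ((x + t • ζ) + c₀ (F (x + t • ζ))) ((x + t • ζ) + c₀ (F (x + t • ζ))) :=
    htend.eventually hE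
  have := hu.unique (hR.congr_of_eventuallyEq heq)
  simp only [hx0, Function.comp_apply] at this
  rw [Q0_symm p (ζ + c₀ (fderiv ℝ F x ζ))] at this
  refine this.trans ?_
  module

/-- the second order identity -/
theorem second {F : T d → N d} {x : T d} (hF : DifferentiableAt ℝ F x)
    (hF2 : DifferentiableAt ℝ (fderiv ℝ F) x)
    (hE : ∀ᶠ z in 𝓝 x, ∀ ζ, fderiv ℝ F z ζ = ψ (fderiv ℝ F z ζ) • F z +
      ψ (F z) • fderiv ℝ F z ζ + Q0 p (z + c₀ (F z)) (ζ + c₀ (fderiv ℝ F z ζ)))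
    (η ζ : T d) :
    D2 F x η ζ = ψ (D2 F x η ζ) • F x + ψ (fderiv ℝ F x ζ) • fderiv ℝ F x η +
      ψ (fderiv ℝ F x η) • fderiv ℝ F x ζ + ψ (F x) • D2 F x η ζ +
      Q0 p (η + c₀ (fderiv ℝ F x η)) (ζ + c₀ (fderiv ℝ F x ζ)) +
      Q0 p (x + c₀ (F x)) (c₀ (D2 F x η ζ)) := by
  have hline : HasDerivAt (fun t : ℝ => x + t • η) η 0 := by
    have := ((hasDerivAt_id (0 : ℝ)).smul_const η).const_add x
    simpa using this
  have hx0 : x + (0 : ℝ) • η = x := by simp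
  have hu : HasDerivAt (fun t : ℝ => F (x + t • η)) (fderiv ℝ F x η) 0 := by
    have h1 : HasFDerivAt F (fderiv ℝ F x) (x + (0 : ℝ) • η) := by
      rw [hx0]; exact hF.hasFDerivAt
    exact h1.comp_hasDerivAt 0 hline
  have hv : HasDerivAt (fun t : ℝ => fderiv ℝ F (x + t • η) ζ) (D2 F x η ζ) 0 := by
    have h1 : HasFDerivAt (fderiv ℝ F) (D2 F x) (x + (0 : ℝ) • η) := by
      rw [hx0]; exact hF2.hasFDerivAt
    have h2 := (h1.comp_hasDerivAt 0 hline).clm_apply (hasDerivAt_const (0 : ℝ) ζ)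
    simpa using h2
  have hw : HasDerivAt (fun t : ℝ => (x + t • η) + c₀ (F (x + t • η)))
      (η + c₀ (fderiv ℝ F x η)) 0 := hline.add (c₀.hasFDerivAt.comp_hasDerivAt 0 hu)
  have hz : HasDerivAt (fun t : ℝ => ζ + c₀ (fderiv ℝ F (x + t • η) ζ))
      (c₀ (D2 F x η ζ)) 0 := (c₀.hasFDerivAt.comp_hasDerivAt 0 hv).const_add ζ
  have hψ : HasDerivAt (fun t : ℝ => ψ (F (x + t • η))) (ψ (fderiv ℝ F x η)) 0 :=
    ψ.hasFDerivAt.comp_hasDerivAt 0 hu
  have hψ2 : HasDerivAt (fun t : ℝ => ψ (fderiv ℝ F (x + t • η) ζ)) (ψ (D2 F x η ζ)) 0 :=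
    ψ.hasFDerivAt.comp_hasDerivAt 0 hv
  have hQ : HasDerivAt (fun t : ℝ => Q0 p ((x + t • η) + c₀ (F (x + t • η)))
      (ζ + c₀ (fderiv ℝ F (x + t • η) ζ))) _ 0 :=
    ((Q0 p).hasFDerivAt.comp_hasDerivAt 0 hw).clm_apply hz
  have hR := ((hψ2.smul hu).add (hψ.smul hv)).add hQ
  have htend : Tendsto (fun t : ℝ => x + t • η) (𝓝 0) (𝓝 x) := by
    have := hline.continuousAt.tendsto
    simpa using this
  have heq : (fun t : ℝ => fderiv ℝ F (x + t • η) ζ) =ᶠ[𝓝 0] fun t =>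
      ψ (fderiv ℝ F (x + t • η) ζ) • F (x + t • η) +
      ψ (F (x + t • η)) • fderiv ℝ F (x + t • η) ζ +
      Q0 p ((x + t • η) + c₀ (F (x + t • η))) (ζ + c₀ (fderiv ℝ F (x + t • η) ζ)) :=
    htend.eventually (hE.mono fun z hz => hz ζ)
  have := hv.unique (hR.congr_of_eventuallyEq heq)
  simp only [hx0, Function.comp_apply] at this
  refine this.trans ?_
  module

/-- the operator `L_x` -/
def Lop (F : T d → N d) (x : T d) : N d →L[ℝ] N d :=
  (1 - ψ (F x)) • ContinuousLinearMap.id ℝ (N d) - ψ.smulRight (F x) -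
    (Q0 p (x + c₀ (F x))).comp c₀

/-- the operator `B_x` -/
def Bop (F : T d → N d) (φ : T d → T d) (x : T d) : T d →L[ℝ] T d :=
  ContinuousLinearMap.id ℝ (T d) + c₀.comp (fderiv ℝ F x) +
    (ψ.comp (fderiv ℝ F x)).smulRight (φ x)

theorem Lop_D2 {F : T d → N d} {φ : T d → T d} {x : T d} (s : ℝ) (hs : s ≠ 0)
    (h1 : x + c₀ (F x) = s • φ x) (h2 : F x = s • f0 p (φ x)) (h3 : 1 - ψ (F x) = s)
    (hE1 : ∀ ζ, fderiv ℝ F x ζ = ψ (fderiv ℝ F x ζ) • F x +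
      ψ (F x) • fderiv ℝ F x ζ + Q0 p (x + c₀ (F x)) (ζ + c₀ (fderiv ℝ F x ζ)))
    (η ζ : T d)
    (hE2 : D2 F x η ζ = ψ (D2 F x η ζ) • F x + ψ (fderiv ℝ F x ζ) • fderiv ℝ F x η +
      ψ (fderiv ℝ F x η) • fderiv ℝ F x ζ + ψ (F x) • D2 F x η ζ +
      Q0 p (η + c₀ (fderiv ℝ F x η)) (ζ + c₀ (fderiv ℝ F x ζ)) +
      Q0 p (x + c₀ (F x)) (c₀ (D2 F x η ζ))) :
    Lop p c₀ ψ F x (D2 F x η ζ) = Q0 p (Bop c₀ ψ F φ x η) (Bop c₀ ψ F φ x ζ) := by
  have key : ∀ ζ, fderiv ℝ F x ζ = ψ (fderiv ℝ F x ζ) • f0 p (φ x) +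
      Q0 p (φ x) (ζ + c₀ (fderiv ℝ F x ζ)) := by
    intro ζ
    have h := hE1 ζ
    have h' : s • fderiv ℝ F x ζ = s • (ψ (fderiv ℝ F x ζ) • f0 p (φ x) +
      Q0 p (φ x) (ζ + c₀ (fderiv ℝ F x ζ))) := by
      rw [h1, map_smul, smul_apply] at h
      calc s • fderiv ℝ F x ζ = (1 - ψ (F x)) • fderiv ℝ F x ζ := by rw [h3]
        _ = fderiv ℝ F x ζ - ψ (F x) • fderiv ℝ F x ζ := by rw [sub_smul, one_smul]
        _ = ψ (fderiv ℝ F x ζ) • F x + s • Q0 p (φ x) (ζ + c₀ (fderiv ℝ F x ζ)) := by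
          nth_rewrite 1 [h]
          module
        _ = _ := by
          rw [h2]
          module
    exact smul_right_injective _ hs h'
  have e1 : Lop p c₀ ψ F x (D2 F x η ζ) = ψ (fderiv ℝ F x ζ) • fderiv ℝ F x η +
      ψ (fderiv ℝ F x η) • fderiv ℝ F x ζ +
      Q0 p (η + c₀ (fderiv ℝ F x η)) (ζ + c₀ (fderiv ℝ F x ζ)) := by
    have e0 : Lop p c₀ ψ F x (D2 F x η ζ) = (1 - ψ (F x)) • D2 F x η ζ -
        ψ (D2 F x η ζ) • F x - Q0 p (x + c₀ (F x)) (c₀ (D2 F x η ζ)) := rfl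
    have e2 : (1 - ψ (F x)) • D2 F x η ζ -
        ψ (D2 F x η ζ) • F x - Q0 p (x + c₀ (F x)) (c₀ (D2 F x η ζ)) =
        (D2 F x η ζ - (ψ (D2 F x η ζ) • F x + ψ (fderiv ℝ F x ζ) • fderiv ℝ F x η +
      ψ (fderiv ℝ F x η) • fderiv ℝ F x ζ + ψ (F x) • D2 F x η ζ +
      Q0 p (η + c₀ (fderiv ℝ F x η)) (ζ + c₀ (fderiv ℝ F x ζ)) +
      Q0 p (x + c₀ (F x)) (c₀ (D2 F x η ζ)))) + (ψ (fderiv ℝ F x ζ) • fderiv ℝ F x η +
      ψ (fderiv ℝ F x η) • fderiv ℝ F x ζ +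
      Q0 p (η + c₀ (fderiv ℝ F x η)) (ζ + c₀ (fderiv ℝ F x ζ))) := by module
    rw [e0, e2, ← hE2, sub_self, zero_add]
  have e3 : ψ (fderiv ℝ F x ζ) • fderiv ℝ F x η + ψ (fderiv ℝ F x η) • fderiv ℝ F x ζ =
      ψ (fderiv ℝ F x ζ) • (ψ (fderiv ℝ F x η) • f0 p (φ x) +
      Q0 p (φ x) (η + c₀ (fderiv ℝ F x η))) +
      ψ (fderiv ℝ F x η) • (ψ (fderiv ℝ F x ζ) • f0 p (φ x) +
      Q0 p (φ x) (ζ + c₀ (fderiv ℝ F x ζ))) := by
    rw [← key η, ← key ζ]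
  have e4 : ∀ ζ, Bop c₀ ψ F φ x ζ = (ζ + c₀ (fderiv ℝ F x ζ)) + ψ (fderiv ℝ F x ζ) • φ x :=
    fun ζ => rfl
  rw [e1, e3, e4, e4]
  generalize ζ + c₀ (fderiv ℝ F x ζ) = bz
  generalize η + c₀ (fderiv ℝ F x η) = be
  simp only [map_add, map_smul, add_apply, smul_apply, f0]
  rw [Q0_symm p (φ x) be]
  module

theorem exists_open {P : T d → Prop} (h : ∀ᶠ x in 𝓝 (0 : T d), P x) :
    ∃ O : Set (T d), IsOpen O ∧ (0 : T d) ∈ O ∧ ∀ x ∈ O, P x := by
  obtain ⟨O, h1, h2, h3⟩ := mem_nhds_iff.1 h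
  exact ⟨O, h2, h3, h1⟩

end K

open K

theorem exists_model (p : NProd d) (c₀ : N d →L[ℝ] T d) (ψ : N d →L[ℝ] ℝ) :
    ∃ (F : T d → N d) (φ : OpenPartialHomeomorph (T d) (T d)),
      (0 : T d) ∈ φ.source ∧ ContDiffOn ℝ ∞ F φ.source ∧ (∀ x ∈ φ.source, Std (D2 F x)) ∧
      F 0 = 0 ∧ fderiv ℝ F 0 = 0 ∧ D2 F 0 = Q0 p ∧
      (∀ x ∈ φ.source, ∃ s : ℝ, s ≠ 0 ∧ ((1, x, F x) : W d) =
        s • (1 + ψ ((1/2 : ℝ) • Q0 p (φ x) (φ x)), φ x - c₀ ((1/2 : ℝ) • Q0 p (φ x) (φ x)),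
          (1/2 : ℝ) • Q0 p (φ x) (φ x))) ∧
      (∀ ξ, iteratedDeriv 3 (fun t : ℝ => F (t • ξ)) 0 = (3 : ℝ) • Q0 p ξ (c₀ (Q0 p ξ ξ))) ∧
      (∀ ξ, iteratedDeriv 4 (fun t : ℝ => F (t • ξ)) 0 =
        (12 : ℝ) • Q0 p ξ (c₀ (Q0 p ξ (c₀ (Q0 p ξ ξ))))
        + (3 : ℝ) • Q0 p (c₀ (Q0 p ξ ξ)) (c₀ (Q0 p ξ ξ))
        + (6 * ψ (Q0 p ξ ξ)) • Q0 p ξ ξ) := by
  have hΘ : ContDiffAt ℝ ω (Θ p c₀ ψ) 0 := contDiffAt_Θ p c₀ ψ (by rw [g_zero]; norm_num)
  have hΘ' := hasFDerivAt_Θ_zero p c₀ ψ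
  have hn : (ω : WithTop ℕ∞) ≠ 0 := by simp
  set e := hΘ.toOpenPartialHomeomorph (Θ p c₀ ψ) hΘ' hn with he
  have hesrc : (0 : T d) ∈ e.source := hΘ.mem_toOpenPartialHomeomorph_source hΘ' hn
  have hetgt : (0 : T d) ∈ e.target := by
    have := hΘ.image_mem_toOpenPartialHomeomorph_target hΘ' hn
    rwa [Θ_zero] at this
  have hecoe : ∀ y, e y = Θ p c₀ ψ y := fun y => rfl
  set φ := e.symm with hφ
  have hφ0 : φ 0 = 0 := by
    have := e.left_inv hesrc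
    rwa [hecoe, Θ_zero] at this
  have hφs : ContDiffAt ℝ ω φ 0 := by
    refine e.contDiffAt_symm hetgt (f₀' := ContinuousLinearEquiv.refl ℝ (T d)) ?_ ?_
    · have : e.symm 0 = 0 := hφ0
      rw [this]; exact hΘ'
    · have : e.symm 0 = 0 := hφ0
      rw [this]; exact hΘ
  set F : T d → N d := fun x => (g p ψ (φ x))⁻¹ • f0 p (φ x) with hFdef
  have hFs : ContDiffAt ℝ ω F 0 := by
    have h1 : ContDiffAt ℝ ω (fun x => g p ψ (φ x)) 0 :=
      (contDiff_g p ψ).contDiffAt.comp 0 hφs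
    have h2 : ContDiffAt ℝ ω (fun x => f0 p (φ x)) 0 :=
      (contDiff_f0 p).contDiffAt.comp 0 hφs
    refine (h1.inv ?_).smul h2
    rw [hφ0, g_zero]; norm_num
  have hFan : AnalyticAt ℝ F 0 := hFs.analyticAt
  have hF0 : F 0 = 0 := by
    simp only [hFdef]
    rw [hφ0, f0_zero, smul_zero]
  have hevF : ∀ᶠ x in 𝓝 (0 : T d), AnalyticAt ℝ F x := hFan.eventually_analyticAt
  have hevg : ∀ᶠ x in 𝓝 (0 : T d), g p ψ (φ x) ≠ 0 := by
    have h1 : ContinuousAt (fun x => g p ψ (φ x)) 0 :=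
      ((contDiff_g p ψ).contDiffAt.comp 0 hφs).continuousAt
    have h2 : (fun x => g p ψ (φ x)) 0 ≠ 0 := by
      simp only [hφ0, g_zero]; norm_num
    exact h1.eventually_ne h2
  have hevt : ∀ᶠ x in 𝓝 (0 : T d), x ∈ e.target := e.open_target.mem_nhds hetgt
  -- algebraic identities
  have halg : ∀ᶠ x in 𝓝 (0 : T d), g p ψ (φ x) ≠ 0 ∧
      x + c₀ (F x) = (g p ψ (φ x))⁻¹ • φ x ∧ 1 - ψ (F x) = (g p ψ (φ x))⁻¹ ∧
      x = (g p ψ (φ x))⁻¹ • (φ x - c₀ (f0 p (φ x))) := by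
    filter_upwards [hevg, hevt] with x h1 h2
    have h3 : Θ p c₀ ψ (φ x) = x := e.right_inv h2
    have h4 : x = (g p ψ (φ x))⁻¹ • (φ x - c₀ (f0 p (φ x))) := h3.symm
    refine ⟨h1, ?_, ?_, h4⟩
    · nth_rewrite 1 [h4]
      simp only [hFdef]
      rw [map_smul]
      module
    · simp only [hFdef]
      rw [map_smul, smul_eq_mul]
      have : ψ (f0 p (φ x)) = g p ψ (φ x) - 1 := by simp [g]
      rw [this]
      field_simp
      ring
  have hE : ∀ᶠ x in 𝓝 (0 : T d), F x = ψ (F x) • F x +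
      (1/2 : ℝ) • Q0 p (x + c₀ (F x)) (x + c₀ (F x)) := by
    filter_upwards [halg] with x hx
    obtain ⟨h1, h2, h3, -⟩ := hx
    rw [h2]
    have h5 : ψ (F x) = 1 - (g p ψ (φ x))⁻¹ := by rw [← h3]; ring
    rw [h5]
    simp only [hFdef, f0, map_smul, smul_apply]
    module
  have hE1 : ∀ᶠ x in 𝓝 (0 : T d), ∀ ζ, fderiv ℝ F x ζ = ψ (fderiv ℝ F x ζ) • F x +
      ψ (F x) • fderiv ℝ F x ζ + Q0 p (x + c₀ (F x)) (ζ + c₀ (fderiv ℝ F x ζ)) := by
    filter_upwards [hE.eventually_nhds, hevF] with x h1 h2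
    exact fun ζ => first p c₀ ψ h2.differentiableAt h1 ζ
  have hL : ∀ᶠ x in 𝓝 (0 : T d), ∀ η ζ, Lop p c₀ ψ F x (D2 F x η ζ) =
      Q0 p (Bop c₀ ψ F φ x η) (Bop c₀ ψ F φ x ζ) := by
    filter_upwards [halg, hE1, hE1.eventually_nhds, hevF] with x h1 h2 h3 h4 η ζ
    exact Lop_D2 p c₀ ψ (g p ψ (φ x))⁻¹ (inv_ne_zero h1.1) h1.2.1 rfl h1.2.2.1 h2 η ζ
      (second p c₀ ψ h4.differentiableAt h4.fderiv.differentiableAt h3 η ζ)
  have hDF0 : fderiv ℝ F 0 = 0 := by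
    refine ContinuousLinearMap.ext fun ζ => ?_
    have := hE1.self_of_nhds ζ
    rw [hF0] at this
    simpa using this
  have hL0 : Lop p c₀ ψ F 0 = ContinuousLinearMap.id ℝ (N d) := by
    simp [Lop, hF0]
  have hB0 : Bop c₀ ψ F φ 0 = ContinuousLinearMap.id ℝ (T d) := by
    simp [Bop, hDF0]
  have hD2 : D2 F 0 = Q0 p := by
    refine ContinuousLinearMap.ext fun η => ContinuousLinearMap.ext fun ζ => ?_
    have := hL.self_of_nhds η ζ
    rw [hL0, hB0] at this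
    exact this
  have hLev : ∀ᶠ x in 𝓝 (0 : T d), Lop p c₀ ψ F x ∈
      Set.range ((↑) : (N d ≃L[ℝ] N d) → (N d →L[ℝ] N d)) := by
    have hcont : ContinuousAt (Lop p c₀ ψ F) 0 := by
      have c1 : ContinuousAt F 0 := hFs.continuousAt
      have c2 : ContinuousAt (fun x => ψ (F x)) 0 := ψ.continuous.continuousAt.comp c1
      have c3 : ContinuousAt (fun x => x + c₀ (F x)) 0 :=
        continuousAt_id.add (c₀.continuous.continuousAt.comp c1)
      have c4 : ContinuousAt (fun x => Q0 p (x + c₀ (F x))) 0 :=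
        (Q0 p).continuous.continuousAt.comp c3
      have c5 : ContinuousAt (fun x => (Q0 p (x + c₀ (F x))).comp c₀) 0 :=
        ((ContinuousLinearMap.compL ℝ (N d) (T d) (N d)).flip c₀).continuous.continuousAt.comp c4
      have c6 : ContinuousAt (fun x => ψ.smulRight (F x)) 0 :=
        (ContinuousLinearMap.smulRightL ℝ (N d) (N d) ψ).continuous.continuousAt.comp c1
      exact (((continuousAt_const.sub c2).smul continuousAt_const).sub c6).sub c5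
    have hn := (ContinuousLinearEquiv.refl ℝ (N d)).nhds
    apply hcont
    rw [hL0]
    exact hn
  have hBev : ∀ᶠ x in 𝓝 (0 : T d), Bop c₀ ψ F φ x ∈
      Set.range ((↑) : (T d ≃L[ℝ] T d) → (T d →L[ℝ] T d)) := by
    have hcont : ContinuousAt (Bop c₀ ψ F φ) 0 := by
      have c1 : ContinuousAt φ 0 := hφs.continuousAt
      have c2 : ContinuousAt (fderiv ℝ F) 0 := hFan.fderiv.continuousAt
      have c3 : ContinuousAt (fun x => c₀.comp (fderiv ℝ F x)) 0 :=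
        (ContinuousLinearMap.compL ℝ (T d) (N d) (T d) c₀).continuous.continuousAt.comp c2
      have c4 : ContinuousAt (fun x => ψ.comp (fderiv ℝ F x)) 0 :=
        (ContinuousLinearMap.compL ℝ (T d) (N d) ℝ ψ).continuous.continuousAt.comp c2
      have c5 : ContinuousAt (fun x => (ψ.comp (fderiv ℝ F x)).smulRight (φ x)) 0 := by
        have c6 : ContinuousAt (fun x => ContinuousLinearMap.smulRightL ℝ (T d) (T d)
          (ψ.comp (fderiv ℝ F x))) 0 :=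
          (ContinuousLinearMap.smulRightL ℝ (T d) (T d)).continuous.continuousAt.comp c4
        exact c6.clm_apply c1
      exact (continuousAt_const.add c3).add c5
    have hn := (ContinuousLinearEquiv.refl ℝ (T d)).nhds
    apply hcont
    rw [hB0]
    exact hn
  -- the open set
  obtain ⟨O, hO, h0O, hOP⟩ := exists_open
    (hevF.and (halg.and (hL.and (hLev.and hBev))))
  refine ⟨F, φ.restrOpen O hO, ?_, ?_, ?_, hF0, hDF0, hD2, ?_, ?_, ?_⟩
  · rw [OpenPartialHomeomorph.restrOpen_source]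
    exact ⟨hetgt, h0O⟩
  · intro x hx
    rw [OpenPartialHomeomorph.restrOpen_source] at hx
    exact ((hOP x hx.2).1.contDiffAt).contDiffWithinAt
  · intro x hx
    rw [OpenPartialHomeomorph.restrOpen_source] at hx
    obtain ⟨-, -, h1, ⟨A, hA⟩, ⟨B, hB⟩⟩ := hOP x hx.2
    refine ⟨p, A.symm, B, fun ξ η => ?_⟩
    have := h1 ξ η
    rw [← hA, ← hB] at this
    rw [ContinuousLinearEquiv.eq_symm_apply]
    exact this
  · intro x hx
    rw [OpenPartialHomeomorph.restrOpen_source] at hx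
    obtain ⟨-, ⟨h1, h2, h3, h4⟩, -⟩ := hOP x hx.2
    refine ⟨(g p ψ (φ x))⁻¹, inv_ne_zero h1, ?_⟩
    have e1 : (1 : ℝ) = (g p ψ (φ x))⁻¹ • (1 + ψ ((1/2 : ℝ) • Q0 p (φ x) (φ x))) := by
      rw [smul_eq_mul]
      exact (inv_mul_cancel₀ h1).symm
    exact Prod.ext e1 (Prod.ext h4 rfl)
  · intro ξ
    have hj := jets (Bil p c₀ ψ) (Bil_symm p c₀ ψ) ((Q0 p ξ).comp c₀) (Q0 p ξ ξ)
      (fun t : ℝ => F (t • ξ)) ?_ ?_ ?_
    · exact hj.1
    · have h1 : AnalyticAt ℝ F ((fun t : ℝ => t • ξ) 0) := by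
        simp only [zero_smul]; exact hFan
      have h2 : AnalyticAt ℝ (fun t : ℝ => t • ξ) 0 := analyticAt_id.smul analyticAt_const
      exact AnalyticAt.comp (g := F) (f := fun t : ℝ => t • ξ) h1 h2
    · simp [hF0]
    · have ht : Tendsto (fun t : ℝ => t • ξ) (𝓝 0) (𝓝 0) := by
        have : Continuous (fun t : ℝ => t • ξ) := continuous_id.smul continuous_const
        have := this.tendsto 0
        simpa using this
      filter_upwards [ht.eventually hE] with t h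
      refine h.trans ?_
      rw [Bil_apply]
      generalize F (t • ξ) = X
      simp only [map_add, map_smul, add_apply, smul_apply, ContinuousLinearMap.comp_apply]
      rw [Q0_symm p (c₀ X) ξ]
      module
  · intro ξ
    have hj := jets (Bil p c₀ ψ) (Bil_symm p c₀ ψ) ((Q0 p ξ).comp c₀) (Q0 p ξ ξ)
      (fun t : ℝ => F (t • ξ)) ?_ ?_ ?_
    · refine hj.2.trans ?_
      rw [Bil_apply]
      simp only [ContinuousLinearMap.comp_apply]
      module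
    · have h1 : AnalyticAt ℝ F ((fun t : ℝ => t • ξ) 0) := by
        simp only [zero_smul]; exact hFan
      have h2 : AnalyticAt ℝ (fun t : ℝ => t • ξ) 0 := analyticAt_id.smul analyticAt_const
      exact AnalyticAt.comp (g := F) (f := fun t : ℝ => t • ξ) h1 h2
    · simp [hF0]
    · have ht : Tendsto (fun t : ℝ => t • ξ) (𝓝 0) (𝓝 0) := by
        have : Continuous (fun t : ℝ => t • ξ) := continuous_id.smul continuous_const
        have := this.tendsto 0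
        simpa using this
      filter_upwards [ht.eventually hE] with t h
      refine h.trans ?_
      rw [Bil_apply]
      generalize F (t • ξ) = X
      simp only [map_add, map_smul, add_apply, smul_apply, ContinuousLinearMap.comp_apply]
      rw [Q0_symm p (c₀ X) ξ]
      module

end Pool.Agent.KP
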