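import Pool.Agent.Lib_helper69.KP.Defs2

/-!
# MP_3b4c52_gt, block K, part 1: jets of solutions of a quadratic equation
-/

open scoped Manifold ContDiff InnerProductSpace Quaternion Topology Matrix
open Metric Set Filter

noncomputable section

namespace Pool.Agent.KP

namespace K

variable {V : Type*} [NormedAddCommGroup V] [NormedSpace ℝ V] [CompleteSpace V]

theorem ev_hasDerivAt {f : ℝ → V} (hf : AnalyticAt ℝ f 0) :
    ∀ᶠ t in 𝓝 (0 : ℝ), HasDerivAt f (deriv f t) t := by
  filter_upwards [hf.eventually_analyticAt] with t ht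
  exact ht.differentiableAt.hasDerivAt

/-- jets of the solution of `f = B(f,f) + t²/2 q + t L f` -/
theorem jets (B : V →L[ℝ] V →L[ℝ] V) (hB : ∀ X Y, B X Y = B Y X) (L : V →L[ℝ] V) (q : V)
    (f : ℝ → V) (hf : AnalyticAt ℝ f 0) (h0 : f 0 = 0)
    (h : ∀ᶠ t in 𝓝 (0 : ℝ), f t = B (f t) (f t) + (t ^ 2 / 2) • q + t • L (f t)) :
    iteratedDeriv 3 f 0 = (3 : ℝ) • L q ∧
    iteratedDeriv 4 f 0 = (6 : ℝ) • B q q + (12 : ℝ) • L (L q) := by
  set f1 := deriv f with hf1
  set f2 := deriv f1 with hf2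
  set f3 := deriv f2 with hf3
  set f4 := deriv f3 with hf4
  have a1 : AnalyticAt ℝ f1 0 := hf.deriv
  have a2 : AnalyticAt ℝ f2 0 := a1.deriv
  have a3 : AnalyticAt ℝ f3 0 := a2.deriv
  have d0 := ev_hasDerivAt hf
  have d1 := ev_hasDerivAt a1
  have d2 := ev_hasDerivAt a2
  have d3 := ev_hasDerivAt a3
  rw [← hf1] at d0
  rw [← hf2] at d1
  rw [← hf3] at d2
  rw [← hf4] at d3
  have hBd : ∀ {u v : ℝ → V} {u' v' : V} {t : ℝ}, HasDerivAt u u' t → HasDerivAt v v' t →
      HasDerivAt (fun s => B (u s) (v s)) (B u' (v t) + B (u t) v') t := by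
    intro u v u' v' t hu hv
    have h1 : HasDerivAt (fun s => B (u s)) (B u') t := B.hasFDerivAt.comp_hasDerivAt t hu
    exact h1.clm_apply hv
  have hLd : ∀ {u : ℝ → V} {u' : V} {t : ℝ}, HasDerivAt u u' t →
      HasDerivAt (fun s => L (u s)) (L u') t := by
    intro u u' t hu
    exact L.hasFDerivAt.comp_hasDerivAt t hu
  have htL : ∀ {u : ℝ → V} {u' : V} {t : ℝ}, HasDerivAt u u' t →
      HasDerivAt (fun s => s • L (u s)) (L (u t) + t • L u') t := by
    intro u u' t hu
    have := (hasDerivAt_id t).smul (hLd hu)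
    simp only [id, one_smul] at this
    convert! this using 1
    rw [add_comm]
  -- first derivative
  have e1 : f1 =ᶠ[𝓝 0] fun t => (2 : ℝ) • B (f t) (f1 t) + t • q + (L (f t) + t • L (f1 t)) := by
    have := EventuallyEq.deriv (𝕜 := ℝ) (f₁ := f)
      (f := fun t => B (f t) (f t) + (t ^ 2 / 2) • q + t • L (f t)) h
    refine this.trans ?_
    filter_upwards [d0] with t ht
    have k1 := hBd ht ht
    have k2 : HasDerivAt (fun s : ℝ => (s ^ 2 / 2) • q) (t • q) t := by
      have := ((hasDerivAt_pow 2 t).div_const 2).smul_const q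
      convert! this using 1
      congr 1
      simp
    have k3 := (k1.add k2).add (htL ht)
    refine k3.deriv.trans ?_
    rw [hB (f1 t) (f t)]
    module
  have e2 : f2 =ᶠ[𝓝 0] fun t => (2 : ℝ) • B (f1 t) (f1 t) + (2 : ℝ) • B (f t) (f2 t) + q +
      ((2 : ℝ) • L (f1 t) + t • L (f2 t)) := by
    have := EventuallyEq.deriv (𝕜 := ℝ) e1
    refine this.trans ?_
    filter_upwards [d0, d1] with t h0 h1
    have k1 := (hBd h0 h1).const_smul (2 : ℝ)
    have k2 : HasDerivAt (fun s : ℝ => s • q) q t := by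
      have := (hasDerivAt_id t).smul_const q
      simpa using this
    have k3 := (k1.add k2).add ((hLd h0).add (htL h1))
    refine k3.deriv.trans ?_
    module
  have e3 : f3 =ᶠ[𝓝 0] fun t => (6 : ℝ) • B (f1 t) (f2 t) + (2 : ℝ) • B (f t) (f3 t) +
      ((3 : ℝ) • L (f2 t) + t • L (f3 t)) := by
    have := EventuallyEq.deriv (𝕜 := ℝ) e2
    refine this.trans ?_
    filter_upwards [d0, d1, d2] with t h0 h1 h2
    have k1 := (hBd h1 h1).const_smul (2 : ℝ)
    have k2 := (hBd h0 h2).const_smul (2 : ℝ)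
    have k3 := ((k1.add k2).add_const q).add (((hLd h1).const_smul (2 : ℝ)).add (htL h2))
    refine k3.deriv.trans ?_
    rw [hB (f2 t) (f1 t)]
    module
  have e4 : f4 =ᶠ[𝓝 0] fun t => (6 : ℝ) • B (f2 t) (f2 t) + (8 : ℝ) • B (f1 t) (f3 t) +
      (2 : ℝ) • B (f t) (f4 t) + ((4 : ℝ) • L (f3 t) + t • L (f4 t)) := by
    have := EventuallyEq.deriv (𝕜 := ℝ) e3
    refine this.trans ?_
    filter_upwards [d0, d1, d2, d3] with t h0 h1 h2 h3
    have k1 := (hBd h1 h2).const_smul (6 : ℝ)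
    have k2 := (hBd h0 h3).const_smul (2 : ℝ)
    have k3 := (k1.add k2).add (((hLd h2).const_smul (3 : ℝ)).add (htL h3))
    refine k3.deriv.trans ?_
    module
  have v1 : f1 0 = 0 := by
    rw [e1.eq_of_nhds, h0]
    simp
  have v2 : f2 0 = q := by
    rw [e2.eq_of_nhds, h0, v1]
    simp
  have v3 : f3 0 = (3 : ℝ) • L q := by
    rw [e3.eq_of_nhds, h0, v1, v2]
    simp
  have v4 : f4 0 = (6 : ℝ) • B q q + (12 : ℝ) • L (L q) := by
    rw [e4.eq_of_nhds, h0, v1, v2, v3]
    simp only [map_zero, zero_apply, smul_zero, add_zero, map_smul, zero_smul]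
    module
  have i3 : iteratedDeriv 3 f = f3 := by
    rw [iteratedDeriv_succ, iteratedDeriv_succ, iteratedDeriv_one]
  have i4 : iteratedDeriv 4 f = f4 := by
    rw [iteratedDeriv_succ, i3]
  rw [i3, i4]
  exact ⟨v3, v4⟩

end K

end Pool.Agent.KP
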